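import Pool.Agent.H917R2.BP.Stm

set_option autoImplicit false

open scoped ComplexOrder InnerProductSpace ComplexConjugate Topology
open Filter

noncomputable section

namespace H13R3.BP

open H759R2.Kad H710R2.DP H917R2.Tr H917R2.BP

theorem t_spcp (h1 : S_sp1) (h2 : S_wf) : S_spcp := by
  intro H Hb _ _ _ _ _ _ c M ξ hCS n a b hab
  obtain ⟨hPK, hpp, huu, -, -, hT0, -, -, -, hXv, -, -⟩ := h2 H Hb c M ξ
  have hw : ∀ p q, star (b q) * b p ∈ M := fun p q => mul_mem (star_mem (hab q).2) (hab p).2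
  have hpos : PosM (fun p q : Fin n => star (b p) * b q) := by
    constructor
    · intro p q
      rw [star_mul, star_star]
    · intro η
      have e : ∑ p, ∑ q, ⟪η p, (star (b p) * b q) (η q)⟫_ℂ =
          ⟪∑ p, b p (η p), ∑ q, b q (η q)⟫_ℂ := by
        rw [sum_inner]
        refine Finset.sum_congr rfl fun p _ => ?_
        rw [inner_sum]
        refine Finset.sum_congr rfl fun q _ => ?_
        rw [mul_apply_eq_comp, ContinuousLinearMap.star_eq_adjoint,
          ContinuousLinearMap.adjoint_inner_right]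
      rw [e]
      exact (inner_self_nonneg (𝕜 := ℂ) (x := ∑ p, b p (η p)))
  obtain ⟨C, hC, hCpos, hCX⟩ := h1 H Hb c M ξ hCS n (fun p q => star (b q) * b p) hw hpos
  have hTs : star (TT c ξ M) = TT c ξ M := (IsSelfAdjoint.of_nonneg hT0).star_eq
  have hPs : star (PK c ξ M) = PK c ξ M := hPK.1
  have hTa : ∀ x y : WW H Hb, ⟪x, TT c ξ M y⟫_ℂ = ⟪TT c ξ M x, y⟫_ℂ := by
    intro x y
    have := ContinuousLinearMap.adjoint_inner_right (TT c ξ M) x y
    rw [← ContinuousLinearMap.star_eq_adjoint, hTs] at this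
    exact this
  have hPa : ∀ x y : WW H Hb, ⟪PK c ξ M x, y⟫_ℂ = ⟪x, PK c ξ M y⟫_ℂ := by
    intro x y
    have := ContinuousLinearMap.adjoint_inner_left (PK c ξ M) y x
    rw [← ContinuousLinearMap.star_eq_adjoint, hPs] at this
    exact this
  -- the key formula
  have key : ∀ x ∈ M, ∀ p q, GG c ξ M x (star (b q) * b p) = ⟪C p q ξ, x ξ⟫_ℂ := by
    intro x hx p q
    unfold GG
    calc ⟪uu c ξ (star (b q) * b p), TT c ξ M (uu c ξ x)⟫_ℂ
        = ⟪TT c ξ M (uu c ξ (star (b q) * b p)), uu c ξ x⟫_ℂ := hTa _ _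
      _ = ⟪XX c ξ M (vv c ξ (C p q)), uu c ξ x⟫_ℂ := by rw [hCX p q]
      _ = ⟪PK c ξ M (pp H Hb (vv c ξ (C p q))), uu c ξ x⟫_ℂ := by rw [hXv _ (hC p q)]
      _ = ⟪pp H Hb (vv c ξ (C p q)), PK c ξ M (uu c ξ x)⟫_ℂ := hPa _ _
      _ = ⟪pp H Hb (vv c ξ (C p q)), uu c ξ x⟫_ℂ := by rw [huu x hx]
      _ = ⟪C p q ξ, x ξ⟫_ℂ := by
          rw [pp_apply]
          unfold vv uu
          rw [WithLp.prod_inner_apply]
          simp
  have hsum : ∑ i, ∑ j, GG c ξ M (star (a i) * a j) (star (b i) * b j) =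
      ∑ i, ∑ j, conj ⟪a j ξ, C j i (a i ξ)⟫_ℂ := by
    refine Finset.sum_congr rfl fun i _ => Finset.sum_congr rfl fun j _ => ?_
    rw [key _ (mul_mem (star_mem (hab i).1) (hab j).1) j i, inner_conj_symm,
      mul_apply_eq_comp, ContinuousLinearMap.star_eq_adjoint,
      ContinuousLinearMap.adjoint_inner_right]
    have hcom := (VonNeumannAlgebra.mem_commutant_iff.mp (hC j i)) (a i) (hab i).1
    have hcom' : a i (C j i ξ) = C j i (a i ξ) := by
      have := congrArg (fun X : BH H => X ξ) hcom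
      simpa [mul_apply_eq_comp] using this
    rw [hcom']
  rw [hsum]
  have hp := hCpos.2 (fun j => a j ξ)
  rw [Finset.sum_comm]
  have e2 : (∑ j, ∑ i, conj ⟪a j ξ, C j i (a i ξ)⟫_ℂ) =
      conj (∑ j, ∑ i, ⟪a j ξ, C j i (a i ξ)⟫_ℂ) := by
    rw [map_sum]
    exact Finset.sum_congr rfl fun j _ => (map_sum _ _ _).symm
  rw [e2, Complex.conj_re]
  exact hp

end H13R3.BP
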