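import Pool.Agent.H306R2.RG.StubsA

set_option autoImplicit false

/-! Project RG, task FGF: all eight families are good. -/

namespace Pool.Agent.H13R3.RGFGF

open Finset Filter Topology MeasureTheory Pool.Agent.H306R2.RZ Pool.Agent.H306R2.RG
open Pool.Agent.H306R2.RG.StubsA

noncomputable section

theorem odd_of_mod4 {ε : ℤ} {d : ℕ} (h : (ε * (d : ℤ)) % 4 = 3) : Odd d := by
  rcases Nat.even_or_odd d with h1 | h1
  · exfalso
    obtain ⟨k, rfl⟩ := h1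
    push_cast at h
    have : ε * ((k : ℤ) + k) = 2 * (ε * k) := by ring
    rw [this] at h
    omega
  · exact h1

theorem odd_of_mod8 {ε c : ℤ} (hc : c = 1 ∨ c = 5) {d : ℕ} (h : (ε * (d : ℤ)) % 8 = c) : Odd d := by
  rcases Nat.even_or_odd d with h1 | h1
  · exfalso
    obtain ⟨k, rfl⟩ := h1
    push_cast at h
    have : ε * ((k : ℤ) + k) = 2 * (ε * k) := by ring
    rw [this] at h
    rcases hc with rfl | rfl <;> omega
  · exact h1

theorem sq_mod8 {a : ℕ} (ha : Odd a) (m : ℤ) : ∃ t : ℤ, (a : ℤ) ^ 2 * m = m + 8 * t := by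
  obtain ⟨k, rfl⟩ := ha
  obtain ⟨j, hj⟩ : Even (k * (k + 1)) := Nat.even_mul_succ_self k
  have hj' : (k : ℤ) * (k + 1) = j + j := by exact_mod_cast hj
  refine ⟨j * m, ?_⟩
  push_cast
  have : (2 * (k : ℤ) + 1) ^ 2 = 4 * (k * (k + 1)) + 1 := by ring
  rw [this, hj']
  ring

theorem isSquare_sq_mul {a : ℕ} (ha : Odd a) (m : ℤ) : IsSquare ((a : ℤ) ^ 2 * m) ↔ IsSquare m := by
  have ha0 : (a : ℤ) ≠ 0 := by
    have : a ≠ 0 := by
      rintro rfl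
      exact absurd ha (by decide)
    exact_mod_cast this
  constructor
  · rintro ⟨r, hr⟩
    have hd : (a : ℤ) ^ 2 ∣ r ^ 2 := ⟨m, by rw [sq, ← hr]⟩
    obtain ⟨s, hs⟩ := (Int.pow_dvd_pow_iff two_ne_zero).mp hd
    refine ⟨s, ?_⟩
    have h2 : (a : ℤ) ^ 2 * m = (a : ℤ) ^ 2 * (s * s) := by
      rw [hr, hs]
      ring
    exact mul_left_cancel₀ (pow_ne_zero 2 ha0) h2
  · rintro ⟨s, hs⟩
    exact ⟨a * s, by rw [hs]; ring⟩

/-- all families except `F1 1 1` satisfy `DEC` -/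
theorem dec_or (φ : FD) (hφ : Fam φ) : φ = F1 1 1 ∨ ∀ F, TF F → DEC φ F := by
  obtain ⟨ε, hε, h | h | h | h⟩ := hφ
  · right
    intro F hF
    rw [h]
    exact DEC8 ε hε F hF
  · right
    intro F hF
    rw [h]
    exact DEC4 ε hε F hF
  · rcases hε with rfl | rfl
    · left
      exact h
    · right
      intro F hF
      rw [h]
      exact (DEC1 F hF).2.2
  · right
    intro F hF
    rcases hε with rfl | rfl
    · rw [h]
      exact (DEC1 F hF).1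
    · rw [h]
      exact (DEC1 F hF).2.1

theorem odd_all (φ : FD) (hφ : Fam φ) : ∀ d, φ.A d → Odd d := by
  intro d hd
  obtain ⟨ε, hε, rfl | rfl | rfl | rfl⟩ := hφ
  · exact hd
  · exact odd_of_mod4 hd
  · exact odd_of_mod8 (Or.inl rfl) hd.1
  · exact odd_of_mod8 (Or.inr rfl) hd.1

theorem sq_all (φ : FD) (hφ : Fam φ) (a d : ℕ) (ha : Odd a) : φ.A (a ^ 2 * d) ↔ φ.A d := by
  have key : ∀ ε : ℤ, ε * ((a ^ 2 * d : ℕ) : ℤ) = (a : ℤ) ^ 2 * (ε * d) := by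
    intro ε
    push_cast
    ring
  obtain ⟨ε, hε, rfl | rfl | rfl | rfl⟩ := hφ
  · show Odd (a ^ 2 * d) ↔ Odd d
    rw [Nat.odd_mul]
    exact ⟨fun h => h.2, fun h => ⟨ha.pow, h⟩⟩
  · show (ε * ((a ^ 2 * d : ℕ) : ℤ)) % 4 = 3 ↔ (ε * (d : ℤ)) % 4 = 3
    rw [key]
    obtain ⟨t, ht⟩ := sq_mod8 ha (ε * d)
    rw [ht]
    omega
  · show ((ε * ((a ^ 2 * d : ℕ) : ℤ)) % 8 = 1 ∧ ¬ IsSquare (ε * ((a ^ 2 * d : ℕ) : ℤ))) ↔
      ((ε * (d : ℤ)) % 8 = 1 ∧ ¬ IsSquare (ε * (d : ℤ)))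
    rw [key, isSquare_sq_mul ha]
    obtain ⟨t, ht⟩ := sq_mod8 ha (ε * d)
    rw [ht]
    refine and_congr_left fun _ => ?_
    omega
  · show ((ε * ((a ^ 2 * d : ℕ) : ℤ)) % 8 = 5 ∧ ¬ IsSquare (ε * ((a ^ 2 * d : ℕ) : ℤ))) ↔
      ((ε * (d : ℤ)) % 8 = 5 ∧ ¬ IsSquare (ε * (d : ℤ)))
    rw [key, isSquare_sq_mul ha]
    obtain ⟨t, ht⟩ := sq_mod8 ha (ε * d)
    rw [ht]
    refine and_congr_left fun _ => ?_
    omega

/-- all eight families are good -/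
theorem FGF (φ : FD) (hφ : Fam φ) : FG φ where
  odd := odd_all φ hφ
  sq := fun a d ha => sq_all φ hφ a d ha
  ha := by
    obtain ⟨ε, rfl | rfl, rfl | rfl | rfl | rfl⟩ := hφ <;> simp [F8, F4, F1]
  hη := by
    obtain ⟨ε, rfl | rfl, rfl | rfl | rfl | rfl⟩ := hφ <;> simp [F8, F4, F1]
  hr := by
    obtain ⟨ε, rfl | rfl, rfl | rfl | rfl | rfl⟩ := hφ <;> simp [F8, F4, F1]
  he := by
    obtain ⟨ε, rfl | rfl, rfl | rfl | rfl | rfl⟩ := hφ <;> simp [F8, F4, F1]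
  hδ := by
    obtain ⟨ε, rfl | rfl, rfl | rfl | rfl | rfl⟩ := hφ <;> simp [F8, F4, F1]
  ub := by
    intro F hF q hq hq0 c hc s θ hA
    rcases dec_or φ hφ with h | h
    · subst h
      exact (UBr DEC11 F hF q hq hq0 c hc s θ hA).1
    · exact UBG φ (odd_all φ hφ) h F hF q hq hq0 c hc s θ hA
  lim := by
    intro F hF q hq hq0 c hc s θ hA w1 w2 Q1 Q2 h1 h2 h3 h4
    rcases dec_or φ hφ with h | h
    · subst h
      exact (UBr DEC11 F hF q hq hq0 c hc s θ hA).2 w1 w2 Q1 Q2 h1 h2 h3 h4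
    · exact LIMG φ (odd_all φ hφ) h F hF q hq hq0 c hc s θ hA w1 w2 Q1 Q2 h1 h2 h3 h4
  lim1 := fun F hF q hq hq0 c hc s θ hA w Q h1 h2 =>
    LM1G φ hφ F hF q hq hq0 c hc s θ hA w Q h1 h2
  ef1 := fun F hF c hc => EF1G φ hφ F hF c hc

end

end Pool.Agent.H13R3.RGFGF
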